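import Mathlib
import Pool.Agent.Lib_helper11.CUB.Base

/-!
Two explicit irreducible polynomials of degree `5` (cyclic quintic fields of conductor `101` and `31`)
along which every completely multiplicative `h` with values `1`, `-1` and `h 2 = -1` takes both signs,
at one of the two ends of `ℤ`, in every interval `[x, C x]`.
-/

namespace Pool.Agent.Lib_helper74.QUI

open Pool.Agent.Lib_helper11.CUB (CM)
open Polynomial

/-- The first quintic (root `2 (η₀ + η₂)`, conductor `101`). -/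
def F (n : ℤ) : ℤ := n ^ 5 + 4 * n ^ 4 - 236 * n ^ 3 - 512 * n ^ 2 + 10784 * n - 7712

/-- The second quintic (root `2 (2 η₁ - η₀)`, conductor `31`). -/
def G (n : ℤ) : ℤ := n ^ 5 + 2 * n ^ 4 - 296 * n ^ 3 - 664 * n ^ 2 + 10928 * n + 31904

theorem F_rel {a b : ℤ} (h : (2 * b - 7) ^ 2 = 2 * (a + 12) ^ 2 + 17) :
    F a * F (-24 - a) = 32 * (F b * F (7 - b)) := by
  have h1 : F a * F (-24 - a) = -(a ^ 2 + 24 * a) ^ 5 + 392 * (a ^ 2 + 24 * a) ^ 4 +
      68784 * (a ^ 2 + 24 * a) ^ 3 - 12526336 * (a ^ 2 + 24 * a) ^ 2 -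
      1425600512 * (a ^ 2 + 24 * a) + 30342833152 := by
    unfold F; ring
  have h2 : F b * F (7 - b) = -(b ^ 2 - 7 * b) ^ 5 + 516 * (b ^ 2 - 7 * b) ^ 4 -
      73940 * (b ^ 2 - 7 * b) ^ 3 + 2570912 * (b ^ 2 - 7 * b) ^ 2 +
      33218816 * (b ^ 2 - 7 * b) + 91379488 := by
    unfold F; ring
  have h3 : a ^ 2 + 24 * a = 2 * (b ^ 2 - 7 * b) - 128 := by nlinarith
  rw [h1, h2, h3]
  generalize b ^ 2 - 7 * b = t
  ring

theorem G_rel {a b : ℤ} (h : (2 * b + 7) ^ 2 = 2 * (a - 12) ^ 2 - 31) :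
    G a * G (24 - a) = 32 * (G b * G (-7 - b)) := by
  have h1 : G a * G (24 - a) = -(a ^ 2 - 24 * a) ^ 5 + 644 * (a ^ 2 - 24 * a) ^ 4 +
      24768 * (a ^ 2 - 24 * a) ^ 3 - 21112384 * (a ^ 2 - 24 * a) ^ 2 -
      379966208 * (a ^ 2 - 24 * a) + 141844673536 := by
    unfold G; ring
  have h2 : G b * G (-7 - b) = -(b ^ 2 + 7 * b) ^ 5 + 582 * (b ^ 2 + 7 * b) ^ 4 -
      87824 * (b ^ 2 + 7 * b) ^ 3 + 3025208 * (b ^ 2 + 7 * b) ^ 2 +
      83281424 * (b ^ 2 + 7 * b) + 395450080 := by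
    unfold G; ring
  have h3 : a ^ 2 - 24 * a = 2 * (b ^ 2 + 7 * b) - 104 := by nlinarith
  rw [h1, h2, h3]
  generalize b ^ 2 + 7 * b = t
  ring

theorem F_ne (n : ℤ) : F n ≠ 0 := by
  intro h
  have h1 : ∀ z : ZMod 3, z ^ 5 + 4 * z ^ 4 - 236 * z ^ 3 - 512 * z ^ 2 + 10784 * z - 7712 ≠ 0 := by
    decide
  apply h1 (n : ZMod 3)
  have h2 := congrArg (Int.cast : ℤ → ZMod 3) h
  unfold F at h2
  push_cast at h2
  exact h2

theorem G_ne (n : ℤ) : G n ≠ 0 := by
  intro h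
  have h1 : ∀ z : ZMod 3, z ^ 5 + 2 * z ^ 4 - 296 * z ^ 3 - 664 * z ^ 2 + 10928 * z + 31904 ≠ 0 := by
    decide
  apply h1 (n : ZMod 3)
  have h2 := congrArg (Int.cast : ℤ → ZMod 3) h
  unfold G at h2
  push_cast at h2
  exact h2

/-- Solutions of `n² = 2 m² + c` with `m` in every `[X, 7X]`. -/
theorem pell {c m0 n0 : ℤ} (hm0 : 0 < m0) (hn0 : 0 < n0) (h0 : n0 ^ 2 = 2 * m0 ^ 2 + c)
    (hc : c ≤ 2 * m0 ^ 2) (X : ℕ) (hX : m0 ≤ X) :
    ∃ m n : ℤ, n ^ 2 = 2 * m ^ 2 + c ∧ 0 < n ∧ (X : ℤ) ≤ m ∧ m ≤ 7 * X := by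
  induction X with
  | zero => exact absurd (lt_of_lt_of_le hm0 hX) (by simp)
  | succ X ih =>
    by_cases hX1 : m0 ≤ (X : ℤ)
    · obtain ⟨m, n, h1, h2, h3, h4⟩ := ih hX1
      by_cases hm : (X : ℤ) + 1 ≤ m
      · exact ⟨m, n, h1, h2, by push_cast; exact hm, by push_cast; linarith⟩
      · have hmX : m = X := by omega
        have hmp : 0 < m := lt_of_lt_of_le hm0 (hX1.trans h3)
        have hn2 : n ≤ 2 * m := by
          have hmm : m0 ^ 2 ≤ m ^ 2 := pow_le_pow_left₀ hm0.le (hX1.trans h3) 2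
          by_contra hcon
          push Not at hcon
          have : (2 * m) ^ 2 < n ^ 2 := pow_lt_pow_left₀ hcon (by linarith) (by norm_num)
          nlinarith
        refine ⟨3 * m + 2 * n, 4 * m + 3 * n, ?_, by linarith, ?_, ?_⟩
        · linear_combination h1
        · push_cast; linarith
        · push_cast; linarith
    · have hX2 : m0 = (X : ℤ) + 1 := by
        push_cast at hX; omega
      exact ⟨m0, n0, h0, hn0, by push_cast; linarith, by push_cast; linarith⟩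

theorem hmul {h : ℕ → ℤ} (hh : CM h) {a b : ℤ} (ha : a ≠ 0) (hb : b ≠ 0) :
    h (a * b).natAbs = h a.natAbs * h b.natAbs := by
  rw [Int.natAbs_mul]
  exact hh.mul _ _ (Int.natAbs_pos.2 ha) (Int.natAbs_pos.2 hb)

theorem h32 {h : ℕ → ℤ} (hh : CM h) (h2 : h 2 = -1) : h 32 = -1 := by
  have e1 := hh.mul 2 2 (by norm_num) (by norm_num)
  have e2 := hh.mul 4 4 (by norm_num) (by norm_num)
  have e3 := hh.mul 16 2 (by norm_num) (by norm_num)
  norm_num at e1 e2 e3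
  rw [h2] at e1 e3
  rw [e1] at e2
  rw [e2] at e3
  rw [e3]; norm_num

/-- If both ends were one-signed the relation would give `h 32 = 1`. -/
theorem contra {f : ℤ → ℤ} (hf : ∀ n, f n ≠ 0) {h : ℕ → ℤ} (hh : CM h) (h2 : h 2 = -1)
    {a a' b b' : ℤ} (hrel : f a * f a' = 32 * (f b * f b')) {ε δ : ℤ}
    (h1 : h (f a).natAbs = ε) (h3 : h (f a').natAbs = δ) (h4 : h (f b).natAbs = ε)
    (h5 : h (f b').natAbs = δ) : False := by
  have e := congrArg (fun z : ℤ => h z.natAbs) hrel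
  rw [hmul hh (hf _) (hf _), hmul hh (by norm_num) (mul_ne_zero (hf _) (hf _)),
    hmul hh (hf _) (hf _), h1, h3, h4, h5] at e
  have e32 : h (32 : ℤ).natAbs = -1 := h32 hh h2
  rw [e32] at e
  have v1 : ε * ε = 1 := by
    rw [← h1]; exact hh.sq (Int.natAbs_pos.2 (hf _))
  have v2 : δ * δ = 1 := by
    rw [← h3]; exact hh.sq (Int.natAbs_pos.2 (hf _))
  have v3 : ε * δ = 0 := by linarith
  have v4 : (ε * δ) * (ε * δ) = 1 := by linear_combination (δ * δ) * v1 + v2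
  rw [v3] at v4
  norm_num at v4

theorem one_end {f : ℤ → ℤ} (hf : ∀ n, f n ≠ 0) {h : ℕ → ℤ} (hh : CM h) {x Z : ℕ} {e : ℤ}
    (hne : ¬ ∀ s : ℤ, (s = 1 ∨ s = -1) → ∃ n : ℕ, x ≤ n ∧ n ≤ Z ∧ h (f (e * n)).natAbs = s) :
    ∃ ε : ℤ, ∀ n : ℤ, (x : ℤ) ≤ n → n ≤ (Z : ℤ) → h (f (e * n)).natAbs = ε := by
  push Not at hne
  obtain ⟨s, hs, hn⟩ := hne
  refine ⟨-s, fun n h1 h2 => ?_⟩
  lift n to ℕ using (by linarith [Int.natCast_nonneg x])
  have h4 := hn n (by exact_mod_cast h1) (by exact_mod_cast h2)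
  rcases hh.values _ (Int.natAbs_pos.2 (hf (e * n))) with h5 | h5 <;> rcases hs with h6 | h6
  · exact absurd (h5.trans h6.symm) h4
  · rw [h5, h6]; norm_num
  · rw [h5, h6]
  · exact absurd (h5.trans h6.symm) h4

theorem F_signs : ∀ h : ℕ → ℤ, CM h → h 2 = -1 → ∀ x : ℕ, 1 ≤ x →
    ∃ e : ℤ, (e = 1 ∨ e = -1) ∧ ∀ s : ℤ, (s = 1 ∨ s = -1) →
      ∃ n : ℕ, x ≤ n ∧ n ≤ 110 * x ∧ h (F (e * n)).natAbs = s := by
  intro h hh h2 x hx
  by_contra hcon
  push Not at hcon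
  have c1 := hcon 1 (Or.inl rfl)
  have c2 := hcon (-1) (Or.inr rfl)
  obtain ⟨ε, hε⟩ := one_end F_ne hh (x := x) (Z := 110 * x) (e := 1) (by push Not; exact c1)
  obtain ⟨δ, hδ⟩ := one_end F_ne hh (x := x) (Z := 110 * x) (e := -1) (by push Not; exact c2)
  obtain ⟨m, n, h3, h4, h5, h6⟩ := pell (c := 17) (m0 := 4) (n0 := 7) (by norm_num) (by norm_num)
    (by norm_num) (by norm_num) (2 * x + 12) (by push_cast; linarith)
  push_cast at h5 h6
  have hx1 : (1 : ℤ) ≤ x := by exact_mod_cast hx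
  have hn1 : m ≤ n := by
    by_contra hc
    push Not at hc
    have : n ^ 2 < m ^ 2 := pow_lt_pow_left₀ hc h4.le (by norm_num)
    nlinarith
  have hn2 : n ≤ 2 * m := by
    by_contra hc
    push Not at hc
    have : (2 * m) ^ 2 < n ^ 2 := pow_lt_pow_left₀ hc (by linarith) (by norm_num)
    nlinarith
  obtain ⟨k, hk⟩ : ∃ k, n = 2 * k - 7 := by
    have hodd : n % 2 = 1 := by
      rcases Int.emod_two_eq_zero_or_one n with h7 | h7
      · exfalso
        obtain ⟨t, rfl⟩ := Int.dvd_of_emod_eq_zero h7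
        have : (2 * (2 * t ^ 2 - m ^ 2)) = 17 := by linear_combination h3
        omega
      · exact h7
    exact ⟨(n + 7) / 2, by omega⟩
  refine contra F_ne hh h2 (a := m - 12) (a' := -24 - (m - 12)) (b := k) (b' := 7 - k) ?_
    (ε := ε) (δ := δ) ?_ ?_ ?_ ?_
  · apply F_rel
    rw [hk] at h3
    linear_combination h3
  · have := hε (m - 12) (by linarith) (by push_cast; linarith)
    rwa [one_mul] at this
  · have := hδ (m + 12) (by linarith) (by push_cast; linarith)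
    rwa [show -1 * (m + 12) = -24 - (m - 12) by ring] at this
  · have := hε k (by omega) (by push_cast; omega)
    rwa [one_mul] at this
  · have := hδ (k - 7) (by omega) (by push_cast; omega)
    rwa [show -1 * (k - 7) = 7 - k by ring] at this

theorem G_signs : ∀ h : ℕ → ℤ, CM h → h 2 = -1 → ∀ x : ℕ, 1 ≤ x →
    ∃ e : ℤ, (e = 1 ∨ e = -1) ∧ ∀ s : ℤ, (s = 1 ∨ s = -1) →
      ∃ n : ℕ, x ≤ n ∧ n ≤ 110 * x ∧ h (G (e * n)).natAbs = s := by
  intro h hh h2 x hx
  by_contra hcon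
  push Not at hcon
  have c1 := hcon 1 (Or.inl rfl)
  have c2 := hcon (-1) (Or.inr rfl)
  obtain ⟨ε, hε⟩ := one_end G_ne hh (x := x) (Z := 110 * x) (e := 1) (by push Not; exact c1)
  obtain ⟨δ, hδ⟩ := one_end G_ne hh (x := x) (Z := 110 * x) (e := -1) (by push Not; exact c2)
  obtain ⟨m, n, h3, h4, h5, h6⟩ := pell (c := -31) (m0 := 4) (n0 := 1) (by norm_num) (by norm_num)
    (by norm_num) (by norm_num) (2 * x + 12) (by push_cast; linarith)
  push_cast at h5 h6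
  have hx1 : (1 : ℤ) ≤ x := by exact_mod_cast hx
  have hm14 : 14 ≤ m := by linarith
  have hn1 : m ≤ n := by
    by_contra hc
    push Not at hc
    have : n ^ 2 < m ^ 2 := pow_lt_pow_left₀ hc h4.le (by norm_num)
    nlinarith
  have hn2 : n ≤ 2 * m := by
    by_contra hc
    push Not at hc
    have : (2 * m) ^ 2 < n ^ 2 := pow_lt_pow_left₀ hc (by linarith) (by norm_num)
    nlinarith
  obtain ⟨k, hk⟩ : ∃ k, n = 2 * k + 7 := by
    have hodd : n % 2 = 1 := by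
      rcases Int.emod_two_eq_zero_or_one n with h7 | h7
      · exfalso
        obtain ⟨t, rfl⟩ := Int.dvd_of_emod_eq_zero h7
        have : (2 * (2 * t ^ 2 - m ^ 2)) = -31 := by linear_combination h3
        omega
      · exact h7
    exact ⟨(n - 7) / 2, by omega⟩
  refine contra G_ne hh h2 (a := m + 12) (a' := 24 - (m + 12)) (b := k) (b' := -7 - k) ?_
    (ε := ε) (δ := δ) ?_ ?_ ?_ ?_
  · apply G_rel
    rw [hk] at h3
    linear_combination h3
  · have := hε (m + 12) (by linarith) (by push_cast; linarith)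
    rwa [one_mul] at this
  · have := hδ (m - 12) (by linarith) (by push_cast; linarith)
    rwa [show -1 * (m - 12) = 24 - (m + 12) by ring] at this
  · have := hε k (by omega) (by push_cast; omega)
    rwa [one_mul] at this
  · have := hδ (k + 7) (by omega) (by push_cast; omega)
    rwa [show -1 * (k + 7) = -7 - k by ring] at this

end Pool.Agent.Lib_helper74.QUI
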