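import Mathlib
import Pool.Agent.Lib_helper74.QUI.Explicit

/-!
The two quintics as polynomials; they are monic, of degree `5` and irreducible (already modulo `3`).
-/

namespace Pool.Agent.Lib_helper74.QUI

open Polynomial

theorem irr_of_coeffs {P : (ZMod 3)[X]} (hm : P.Monic) (hd : P.natDegree = 5)
    {a0 a1 a2 a3 a4 : ZMod 3} (h0 : P.coeff 0 = a0) (h1 : P.coeff 1 = a1) (h2 : P.coeff 2 = a2)
    (h3 : P.coeff 3 = a3) (h4 : P.coeff 4 = a4)
    (hlin : ∀ b d e k l : ZMod 3, ¬ (b + d = a4 ∧ b * d + e = a3 ∧ b * e + k = a2 ∧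
      b * k + l = a1 ∧ b * l = a0))
    (hquad : ∀ b c d e k : ZMod 3, ¬ (b + d = a4 ∧ c + b * d + e = a3 ∧ c * d + b * e + k = a2 ∧
      c * e + b * k = a1 ∧ c * k = a0)) : Irreducible P := by
  have : Fact (Nat.Prime 3) := ⟨by norm_num⟩
  rw [hm.irreducible_iff_natDegree']
  refine ⟨fun h => by rw [h] at hd; simp at hd, ?_⟩
  intro f g hf hg hfg hmem
  rw [hd] at hmem
  have hdeg : f.natDegree + g.natDegree = 5 := by
    rw [← hf.natDegree_mul hg, hfg, hd]
  rw [Finset.mem_Ioc] at hmem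
  obtain ⟨m1, m2⟩ := hmem
  have m3 : g.natDegree = 1 ∨ g.natDegree = 2 := by omega
  have co : ∀ n, (f * g).coeff n = P.coeff n := fun n => by rw [hfg]
  rcases m3 with m3 | m3
  · have fd : f.natDegree = 4 := by omega
    have g1 : g.coeff 1 = 1 := by rw [← m3]; exact hg.coeff_natDegree
    have f4 : f.coeff 4 = 1 := by rw [← fd]; exact hf.coeff_natDegree
    have gz : ∀ n, 1 < n → g.coeff n = 0 := fun n hn => coeff_eq_zero_of_natDegree_lt (by omega)
    have fz : ∀ n, 4 < n → f.coeff n = 0 := fun n hn => coeff_eq_zero_of_natDegree_lt (by omega)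
    apply hlin (g.coeff 0) (f.coeff 3) (f.coeff 2) (f.coeff 1) (f.coeff 0)
    have c0 := co 0
    have c1 := co 1
    have c2 := co 2
    have c3 := co 3
    have c4 := co 4
    simp only [coeff_mul, Finset.Nat.antidiagonal_succ, Finset.Nat.antidiagonal_zero,
      Finset.sum_cons, Finset.map_cons, Finset.map_singleton,
      Finset.sum_singleton, Function.Embedding.prodMap, Function.Embedding.coeFn_mk, Prod.map,
      Function.Embedding.refl_apply, Nat.succ_eq_add_one] at c0 c1 c2 c3 c4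
    rw [h0] at c0; rw [h1] at c1; rw [h2] at c2; rw [h3] at c3; rw [h4] at c4
    norm_num [gz] at c0 c1 c2 c3 c4
    rw [g1] at c1 c2 c3 c4
    rw [f4] at c4
    refine ⟨?_, ?_, ?_, ?_, ?_⟩
    · linear_combination c4
    · linear_combination c3
    · linear_combination c2
    · linear_combination c1
    · linear_combination c0
  · have fd : f.natDegree = 3 := by omega
    have g2 : g.coeff 2 = 1 := by rw [← m3]; exact hg.coeff_natDegree
    have f3 : f.coeff 3 = 1 := by
      have := hf.coeff_natDegree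
      rwa [fd] at this
    have gz : ∀ n, 2 < n → g.coeff n = 0 := fun n hn => coeff_eq_zero_of_natDegree_lt (by omega)
    have fz : ∀ n, 3 < n → f.coeff n = 0 := fun n hn => coeff_eq_zero_of_natDegree_lt (by omega)
    apply hquad (g.coeff 1) (g.coeff 0) (f.coeff 2) (f.coeff 1) (f.coeff 0)
    have c0 := co 0
    have c1 := co 1
    have c2 := co 2
    have c3 := co 3
    have c4 := co 4
    simp only [coeff_mul, Finset.Nat.antidiagonal_succ, Finset.Nat.antidiagonal_zero,
      Finset.sum_cons, Finset.map_cons, Finset.map_singleton,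
      Finset.sum_singleton, Function.Embedding.prodMap, Function.Embedding.coeFn_mk, Prod.map,
      Function.Embedding.refl_apply, Nat.succ_eq_add_one] at c0 c1 c2 c3 c4
    rw [h0] at c0; rw [h1] at c1; rw [h2] at c2; rw [h3] at c3; rw [h4] at c4
    norm_num [gz, fz] at c0 c1 c2 c3 c4
    rw [g2] at c2 c3 c4
    rw [f3] at c3 c4
    refine ⟨?_, ?_, ?_, ?_, ?_⟩
    · linear_combination c4
    · linear_combination c3
    · linear_combination c2
    · linear_combination c1
    · linear_combination c0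

/-- The quintic of conductor `101`. -/
noncomputable def polyF : ℤ[X] :=
  X ^ 5 + 4 * X ^ 4 - 236 * X ^ 3 - 512 * X ^ 2 + 10784 * X - 7712

/-- The quintic of conductor `31`. -/
noncomputable def polyG : ℤ[X] :=
  X ^ 5 + 2 * X ^ 4 - 296 * X ^ 3 - 664 * X ^ 2 + 10928 * X + 31904

theorem polyF_eval (n : ℤ) : polyF.eval n = F n := by
  unfold polyF F; simp

theorem polyG_eval (n : ℤ) : polyG.eval n = G n := by
  unfold polyG G; simp

theorem polyF_natDegree : polyF.natDegree = 5 := by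
  unfold polyF; compute_degree!

theorem polyG_natDegree : polyG.natDegree = 5 := by
  unfold polyG; compute_degree!

theorem polyF_monic : polyF.Monic := by
  unfold polyF; monicity!

theorem polyG_monic : polyG.Monic := by
  unfold polyG; monicity!

theorem linF : ∀ b d e k l : ZMod 3, ¬ (b + d = 1 ∧ b * d + e = 1 ∧ b * e + k = 1 ∧
    b * k + l = 2 ∧ b * l = 1) := by decide

theorem quadF : ∀ b c d e k : ZMod 3, ¬ (b + d = 1 ∧ c + b * d + e = 1 ∧ c * d + b * e + k = 1 ∧
    c * e + b * k = 2 ∧ c * k = 1) := by decide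

theorem linG : ∀ b d e k l : ZMod 3, ¬ (b + d = 2 ∧ b * d + e = 1 ∧ b * e + k = 2 ∧
    b * k + l = 2 ∧ b * l = 2) := by decide

theorem quadG : ∀ b c d e k : ZMod 3, ¬ (b + d = 2 ∧ c + b * d + e = 1 ∧ c * d + b * e + k = 2 ∧
    c * e + b * k = 2 ∧ c * k = 2) := by decide

theorem polyF_irreducible : Irreducible polyF := by
  have : Fact (Nat.Prime 3) := ⟨by norm_num⟩
  refine polyF_monic.irreducible_of_irreducible_map (Int.castRingHom (ZMod 3)) _ ?_
  have hm := polyF_monic.map (Int.castRingHom (ZMod 3))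
  have hd : (polyF.map (Int.castRingHom (ZMod 3))).natDegree = 5 := by
    rw [polyF_monic.natDegree_map, polyF_natDegree]
  refine irr_of_coeffs hm hd (a0 := 1) (a1 := 2) (a2 := 1) (a3 := 1) (a4 := 1) ?_ ?_ ?_ ?_ ?_
    linF quadF
  all_goals
    rw [coeff_map]
    unfold polyF
    simp [coeff_X, coeff_ofNat_mul, coeff_X_pow]
    try rfl

theorem polyG_irreducible : Irreducible polyG := by
  have : Fact (Nat.Prime 3) := ⟨by norm_num⟩
  refine polyG_monic.irreducible_of_irreducible_map (Int.castRingHom (ZMod 3)) _ ?_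
  have hm := polyG_monic.map (Int.castRingHom (ZMod 3))
  have hd : (polyG.map (Int.castRingHom (ZMod 3))).natDegree = 5 := by
    rw [polyG_monic.natDegree_map, polyG_natDegree]
  refine irr_of_coeffs hm hd (a0 := 2) (a1 := 2) (a2 := 2) (a3 := 1) (a4 := 2) ?_ ?_ ?_ ?_ ?_
    linG quadG
  all_goals
    rw [coeff_map]
    unfold polyG
    simp [coeff_X, coeff_ofNat_mul, coeff_X_pow]
    try rfl

open Pool.Agent.Lib_helper11.CUB (CM) in
/-- **Part 2 (explicit quintics).** -/
theorem explicit_quintics :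
    (Irreducible (X ^ 5 + 4 * X ^ 4 - 236 * X ^ 3 - 512 * X ^ 2 + 10784 * X - 7712 : ℤ[X]) ∧
      ∀ h : ℕ → ℤ, CM h → h 2 = -1 → ∀ x : ℕ, 1 ≤ x →
        ∃ e : ℤ, (e = 1 ∨ e = -1) ∧ ∀ s : ℤ, (s = 1 ∨ s = -1) → ∃ n : ℕ, x ≤ n ∧ n ≤ 110 * x ∧
          h ((X ^ 5 + 4 * X ^ 4 - 236 * X ^ 3 - 512 * X ^ 2 + 10784 * X - 7712 : ℤ[X]).eval
            (e * n)).natAbs = s) ∧
    (Irreducible (X ^ 5 + 2 * X ^ 4 - 296 * X ^ 3 - 664 * X ^ 2 + 10928 * X + 31904 : ℤ[X]) ∧
      ∀ h : ℕ → ℤ, CM h → h 2 = -1 → ∀ x : ℕ, 1 ≤ x →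
        ∃ e : ℤ, (e = 1 ∨ e = -1) ∧ ∀ s : ℤ, (s = 1 ∨ s = -1) → ∃ n : ℕ, x ≤ n ∧ n ≤ 110 * x ∧
          h ((X ^ 5 + 2 * X ^ 4 - 296 * X ^ 3 - 664 * X ^ 2 + 10928 * X + 31904 : ℤ[X]).eval
            (e * n)).natAbs = s) := by
  refine ⟨⟨polyF_irreducible, fun h hh h2 x hx => ?_⟩, polyG_irreducible, fun h hh h2 x hx => ?_⟩
  · obtain ⟨e, he, h3⟩ := F_signs h hh h2 x hx
    refine ⟨e, he, fun s hs => ?_⟩
    obtain ⟨n, h4, h5, h6⟩ := h3 s hs
    refine ⟨n, h4, h5, ?_⟩
    have := polyF_eval (e * n)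
    unfold polyF at this
    rw [this]; exact h6
  · obtain ⟨e, he, h3⟩ := G_signs h hh h2 x hx
    refine ⟨e, he, fun s hs => ?_⟩
    obtain ⟨n, h4, h5, h6⟩ := h3 s hs
    refine ⟨n, h4, h5, ?_⟩
    have := polyG_eval (e * n)
    unfold polyG at this
    rw [this]; exact h6

end Pool.Agent.Lib_helper74.QUI
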